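import Pool.Agent.Q19.LC.State

/-!
# Infinite flexible catalysis gives nothing beyond standard catalysis

`CatFlex = Cat` for pure bipartite states: if for some nonempty (possibly infinite) set `S` of
states every catalyst `η ∈ S` admits `η' ∈ S` with `ψ ⊗ η → φ ⊗ η'`, then one fixed catalyst
state `η` has `ψ ⊗ η → φ ⊗ η`.

Convertibility by LOCC is taken in the form of the problem file (Nielsen): the Schmidt vector of
the source is majorized by the Schmidt vector of the target (zero padding allowed).
-/

namespace Pool.Agent.Results.MP_261b1b_mp.FlexibleCatalysis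

open Pool.Agent.Q19.LC

/-- A pure bipartite state `∑ amp i j |i⟩ ⊗ |j⟩` in `ℂ^d ⊗ ℂ^d`, `d` an arbitrary finite
dimension, given by its matrix of coefficients; it is a unit vector. -/
structure PureState where
  d : ℕ
  amp : Matrix (Fin d) (Fin d) ℂ
  norm_one : ∑ i, ∑ j, ‖amp i j‖ ^ 2 = 1

/-- The Schmidt vector (squared Schmidt coefficients), as a multiset of `d` nonnegative reals:
the eigenvalues with multiplicity of the reduced density matrix `amp * ampᴴ`. -/
noncomputable def schmidt (ψ : PureState) : Multiset ℝ := sqSing ψ.amp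

/-- The tensor product of two bipartite states (the first factors together against the second
factors together): its matrix of coefficients is the Kronecker product of the matrices. -/
noncomputable def tensor (ψ φ : PureState) : PureState where
  d := ψ.d * φ.d
  amp := tensorAmp ψ.amp φ.amp
  norm_one := by rw [tensorAmp_norm, ψ.norm_one, φ.norm_one, one_mul]

/-- `ψ → φ` is possible in LOCC: the Schmidt vector of `ψ` is majorized by that of `φ`, i.e. for
every `k` the sum of the `k` largest entries of the first is at most the sum of the `k` largest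
entries of the second (missing entries counting as zero), and the total sums agree. -/
def Possible (ψ φ : PureState) : Prop := Majorized (schmidt ψ) (schmidt φ)

/-- Standard catalysis. -/
def Cat : Set (PureState × PureState) :=
  {p | ∃ η : PureState, Possible (tensor p.1 η) (tensor p.2 η)}

/-- Flexible catalysis with the set `S` of catalysts. -/
def CatFlexOf (S : Set PureState) : Set (PureState × PureState) :=
  {p | ∀ η ∈ S, ∃ η' ∈ S, Possible (tensor p.1 η) (tensor p.2 η')}

/-- Flexible catalysis: the union over all nonempty, possibly infinite, sets of catalysts. -/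
def CatFlex : Set (PureState × PureState) :=
  {p | ∃ S : Set PureState, S.Nonempty ∧ p ∈ CatFlexOf S}

lemma schmidt_nonneg (ψ : PureState) : ∀ a ∈ schmidt ψ, 0 ≤ a := sqSing_nonneg _

lemma schmidt_sum (ψ : PureState) : (schmidt ψ).sum = 1 := by
  rw [schmidt, sqSing_sum, ψ.norm_one]

lemma schmidt_tensor (ψ φ : PureState) :
    schmidt (tensor ψ φ) = mulM (schmidt ψ) (schmidt φ) := sqSing_tensorAmp _ _

/-- the positive part of the Schmidt vector -/
noncomputable def pos (ψ : PureState) : Multiset ℝ := (schmidt ψ).filter (fun a => 0 < a)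

lemma pos_good (ψ : PureState) : Good (pos ψ) := good_filter _ (schmidt_nonneg ψ) (schmidt_sum ψ)

lemma pos_sum (ψ : PureState) : (pos ψ).sum = 1 := by
  rw [pos, sum_filter_pos _ (schmidt_nonneg ψ), schmidt_sum]

lemma possible_iff (ψ η φ η' : PureState) : Possible (tensor ψ η) (tensor φ η') ↔
    ∀ t, W (mulM (pos ψ) (pos η)) t ≤ W (mulM (pos φ) (pos η')) t := by
  unfold Possible
  rw [majorized_iff _ _ (schmidt_nonneg _) (schmidt_nonneg _), schmidt_sum, schmidt_sum]
  simp only [and_true]
  apply forall_congr'
  intro t
  rw [schmidt_tensor, schmidt_tensor]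
  unfold pos
  rw [W_mulM_filter _ _ (schmidt_nonneg _) (schmidt_nonneg _),
    W_mulM_filter _ _ (schmidt_nonneg _) (schmidt_nonneg _)]

theorem catFlex_subset : CatFlex ⊆ Cat := by
  rintro ⟨ψ, φ⟩ ⟨S, ⟨η0, hη0⟩, hS⟩
  change ∀ η ∈ S, ∃ η' ∈ S, Possible (tensor ψ η) (tensor φ η') at hS
  choose! next hnext hpos using hS
  let e : ℕ → PureState := fun n => next^[n] η0
  have he : ∀ n, e n ∈ S := by
    intro n
    induction n with
    | zero => exact hη0
    | succ n ih =>
      change next^[n + 1] η0 ∈ S
      rw [Function.iterate_succ_apply']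
      exact hnext _ ih
  have hstep : ∀ n, Possible (tensor ψ (e n)) (tensor φ (e (n + 1))) := by
    intro n
    have h1 : e (n + 1) = next (e n) := Function.iterate_succ_apply' next n η0
    rw [h1]
    exact hpos _ (he n)
  have hchain : Chain (pos ψ) (pos φ) (fun n => pos (e n)) :=
    ⟨fun n => pos_good _, fun n => pos_sum _, fun n t => (possible_iff _ _ _ _).1 (hstep n) t⟩
  obtain ⟨c, hc, hc1, hcW⟩ := catalyst_of_chain (pos ψ) (pos φ) (pos_good ψ) (pos_good φ)
    (pos_sum ψ) (pos_sum φ) _ hchain
  obtain ⟨M, hM⟩ := exists_sqSing c (fun a ha => (hc a ha).1.le)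
  have hnorm : ∑ i, ∑ j, ‖M i j‖ ^ 2 = 1 := by rw [← sqSing_sum, hM, hc1]
  have hposM : pos ⟨c.card, M, hnorm⟩ = c := by
    unfold pos schmidt
    rw [hM]
    exact filter_of_good hc
  refine ⟨⟨c.card, M, hnorm⟩, ?_⟩
  change Possible (tensor ψ _) (tensor φ _)
  rw [possible_iff, hposM]
  exact hcW

/-- **Q1 in the negative.** Flexible catalysis with arbitrary, possibly infinite, sets of
catalysts gives exactly the standard catalytic transformations. -/
theorem result : CatFlex = Cat ∧ ¬ (Cat ⊂ CatFlex) := by
  have h1 : CatFlex = Cat := by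
    apply Set.Subset.antisymm catFlex_subset
    rintro p ⟨η, hη⟩
    refine ⟨{η}, ⟨η, rfl⟩, fun η' hη' => ⟨η, rfl, ?_⟩⟩
    rw [Set.mem_singleton_iff] at hη'
    rw [hη']
    exact hη
  exact ⟨h1, fun h => h.ne h1.symm⟩

end Pool.Agent.Results.MP_261b1b_mp.FlexibleCatalysis
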